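import Pool.Agent.P.MP_9aa8f2_an.WB.B5

namespace Pool.Agent.Results.MP_9aa8f2_an.PlaneWeakStar

open Pool.Agent.P.MP_9aa8f2_an Filter Topology

/-- The linear map `T` is bounded for the Lipschitz norms. -/
def Bdd {X Y : Type} [MetricSpace X] [MetricSpace Y] {p : X} {q : Y}
    (T : Lip0 p →ₗ[ℝ] Lip0 q) : Prop :=
  ∃ C : ℝ, ∀ f : Lip0 p, lipNorm (T f : Y → ℝ) ≤ C * lipNorm (f : X → ℝ)

/-- `T` sends norm bounded pointwise null sequences to pointwise null sequences. -/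
def WeakStar {X Y : Type} [MetricSpace X] [MetricSpace Y] {p : X} {q : Y}
    (T : Lip0 p →ₗ[ℝ] Lip0 q) : Prop :=
  ∀ h : ℕ → Lip0 p, (∃ L : ℝ, ∀ i, lipNorm (h i : X → ℝ) ≤ L) →
    (∀ a, Tendsto (fun i => (h i : X → ℝ) a) atTop (𝓝 0)) →
    ∀ y, Tendsto (fun i => (T (h i) : Y → ℝ) y) atTop (𝓝 0)

/-- The identity of `Lip0 q` is `A ∘ B` with `A`, `B` bounded through `Lip0 p` and `A` weak star
continuous. -/
def Factors {X Y : Type} [MetricSpace X] [MetricSpace Y] (p : X) (q : Y) : Prop :=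
  ∃ (A : Lip0 p →ₗ[ℝ] Lip0 q) (B : Lip0 q →ₗ[ℝ] Lip0 p),
    Bdd A ∧ Bdd B ∧ WeakStar A ∧ ∀ g, A (B g) = g

/-- Let `M` be a porous subset of the Euclidean plane. The identity of `Lip0` of the plane does
not factor as `A ∘ B` through `Lip0 M` with `A`, `B` bounded and `A` sequentially weak star
continuous. -/
theorem result (M : Set (EuclideanSpace ℝ (Fin 2))) (hM : Porous M) (p : M) :
    ¬ Factors p (0 : EuclideanSpace ℝ (Fin 2)) := by
  rintro ⟨A, B, hA, hB, hw, h⟩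
  have e : ∀ y : EuclideanSpace ℝ (Fin 2), WS.pr (k := 0) y = y := by
    intro y
    ext i
    fin_cases i <;> rfl
  have e2 : WS.pr (k := 0) '' M = M := by
    ext y
    constructor
    · rintro ⟨x, hx, rfl⟩
      rw [e]
      exact hx
    · intro hy
      exact ⟨y, hy, e y⟩
  exact WS.no_weak_star 0 M (Or.inl (e2.symm ▸ hM)) p A B (WS.bddO_of hA) (WS.bddO_of hB)
    (fun g hg => hw g hg.1 hg.2) (LinearMap.ext h)

end Pool.Agent.Results.MP_9aa8f2_an.PlaneWeakStar
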