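import Pool.Agent.P.MP_9aa8f2_an.Main

namespace Pool.Agent.Results.MP_9aa8f2_an.PorousNotLinfty

open Pool.Agent.P.MP_9aa8f2_an

/-- The set `[0,1] × C` (`C` the middle-thirds Cantor set) is porous in the Euclidean plane, and
for every planar set `M` containing it no bounded linear operator maps `Lip0 ℝ` onto `Lip0 M`. -/
theorem result : Porous comb ∧
    ∀ M : Set (EuclideanSpace ℝ (Fin 2)), comb ⊆ M → ∀ (p : M)
      (T : Lip0 (0 : ℝ) →ₗ[ℝ] Lip0 p),
      (∃ C : ℝ, ∀ f : Lip0 (0 : ℝ), lipNorm (T f : M → ℝ) ≤ C * lipNorm (f : ℝ → ℝ)) →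
      ¬ Function.Surjective T :=
  ⟨porous_comb, fun _ hM p T ⟨_, hT⟩ => no_surjection hM p T hT⟩

end Pool.Agent.Results.MP_9aa8f2_an.PorousNotLinfty
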